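import Pool.Agent.MP_36375e_gt.Defs
import Pool.Agent.MP_36375e_gt.Mg.Limit

set_option autoImplicit false

open Pool.Agent.MP_36375e_gt

namespace Pool.Agent.Results.MP_36375e_gt.HellyNotInSC

/-- For every second countable space X (in particular the Baire space of sequences of natural
numbers) no compact subset of the space of scatteredly continuous real functions on X, with the
topology of pointwise convergence, is homeomorphic to the Helly space. -/
theorem result (X : Type) [TopologicalSpace X] [SecondCountableTopology X] :
    ¬ ∃ K : Set {f : X → ℝ // ScatteredlyContinuous f},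
      IsCompact K ∧ Nonempty (K ≃ₜ {h : unitInterval → unitInterval // Monotone h}) := by
  classical
  rintro ⟨K, -, ⟨e⟩⟩
  let ψ : X → (unitInterval → unitInterval) → ℝ := fun x f =>
    if h : Monotone f then (e.symm ⟨f, h⟩).1.1 x else 0
  have hψ : ∀ x (f : {h : unitInterval → unitInterval // Monotone h}),
      ψ x f.1 = (e.symm f).1.1 x := fun x f => dif_pos f.2
  obtain ⟨h, hh, A, hA, hA'⟩ := not_scattered ψ
    (fun x => by
      rw [continuousOn_iff_continuous_domRestrict]
      have : Mon.domRestrict (ψ x) = fun f => (e.symm f).1.1 x := funext fun f => hψ x f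
      rw [this]
      exact (continuous_apply x).comp
        (continuous_subtype_val.comp (continuous_subtype_val.comp e.symm.continuous)))
    (fun f hf g hg hfg => by
      have h1 : e.symm ⟨f, hf⟩ = e.symm ⟨g, hg⟩ := by
        apply Subtype.ext
        apply Subtype.ext
        funext x
        rw [← hψ x ⟨f, hf⟩, ← hψ x ⟨g, hg⟩]
        exact hfg x
      exact congrArg Subtype.val (e.symm.injective h1))
  obtain ⟨x, hx⟩ := (e.symm ⟨h, hh⟩).1.2 A hA
  apply hA' x x.2
  have : (fun y => ψ y h) = (e.symm ⟨h, hh⟩).1.1 := funext fun y => hψ y ⟨h, hh⟩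
  rw [this, continuousWithinAt_iff_continuousAt_domRestrict _ x.2]
  exact hx

end Pool.Agent.Results.MP_36375e_gt.HellyNotInSC
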